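import Pool.Agent.Lib.MP_d1c05b_gt.PM.Kap

/-!
# The polydisk is a global maximiser of the `k`-th capacity ratio exactly for `k ≥ n`

For every `k`-capacity of `ℂⁿ` and every convex toric domain `X`,
`ĉ_k(X) ≤ (k^m / m!)^{1/n}`, `m = min k n`; the bound is attained (by the polydisk for `k ≥ n`, by a
cone body for `k < n`) if the capacity satisfies the lower bound of the Gutt-Hutchings formula. Hence
the polydisk is a global maximiser iff `k ≥ n`, while `κ(n)` is the least `k ≥ 2` with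
`2^{k-1} n! ≤ k^n`, which is at most `n`, with equality for `n = 2, 3, 4` only.
-/

open MeasureTheory
open scoped ENNReal

namespace Pool.Agent.Results.MP_d1c05b_gt.PolydiskMaximizer

open Pool.Agent.Lib.MP_d1c05b_gt
open Pool.Agent.Lib.MP_d1c05b_gt.PM

/-- `(k^m / m!)^{1/n}`, `m = min k n`. -/
noncomputable def maxRatio (n k : ℕ) : ℝ≥0∞ :=
  ENNReal.ofReal (((k : ℝ) ^ (min k n) / ((min k n).factorial : ℝ)) ^ ((1 : ℝ) / n))

/-- `P(1,…,1)` is a global maximiser of the capacity ratio on convex toric domains. -/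
def PolydiskMax {n : ℕ} (c : Set (Fin n → ℂ) → ℝ≥0∞) : Prop :=
  ∀ X : Set (Fin n → ℂ), IsConvexToricDomain X → ratio c X ≤ ratio c (polydisk n)

theorem result (n : ℕ) (hn : 2 ≤ n) :
    (∀ (k : ℕ) (c : Set (Fin n → ℂ) → ℝ≥0∞), 1 ≤ k → IsCapacity k c →
      (∀ X, IsConvexToricDomain X → ratio c X ≤ maxRatio n k) ∧
      (n ≤ k → (k : ℝ≥0∞) ≤ c (polydisk n) → PolydiskMax c) ∧
      (GuttHutchingsLower k c →
        (∃ X, IsConvexToricDomain X ∧ ratio c X = maxRatio n k) ∧ (PolydiskMax c ↔ n ≤ k))) ∧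
    (∀ c : ℕ → Set (Fin n → ℂ) → ℝ≥0∞,
      (∀ k : ℕ, 1 ≤ k → IsCapacity k (c k) ∧ (k : ℝ≥0∞) ≤ c k (polydisk n)) →
      ∃ κ, IsKappa c κ ∧ IsLeast {k : ℕ | 2 ≤ k ∧ 2 ^ (k - 1) * n.factorial ≤ k ^ n} κ ∧ κ ≤ n ∧
        (κ < n ↔ 5 ≤ n)) := by
  have : NeZero n := ⟨by omega⟩
  refine ⟨fun k c hk hc => ⟨fun X hX => ratio_le (by omega) hk c hc X hX,
    fun hkn hP X hX => ratio_le_polydisk (by omega) hkn c hc hP X hX, fun hGH => ?_⟩,
    fun c hc => ?_⟩
  · rcases Nat.lt_or_ge k n with hkn | hkn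
    · obtain ⟨hX, hXr⟩ := ratio_cone hk hkn.le c hc hGH
      refine ⟨⟨_, hX, ?_⟩, fun h => ?_, fun h => absurd h (by omega)⟩
      · unfold maxRatio
        rw [min_eq_left hkn.le]
        exact hXr
      · exact absurd (h _ hX) (not_le.2 (ratio_polydisk_lt_cone hk hkn c hc hGH))
    · have hP := le_polydisk c hGH
      refine ⟨⟨polydisk n, isConvexToricDomain_polydisk, le_antisymm
        (ratio_le (by omega) hk c hc _ isConvexToricDomain_polydisk) ?_⟩, fun _ => hkn,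
        fun _ X hX => ratio_le_polydisk (by omega) hkn c hc hP X hX⟩
      unfold maxRatio
      rw [min_eq_right hkn]
      exact ratio_polydisk_ge (by omega) c hP
  · obtain ⟨κ, hκ, hκn, hκ5⟩ := exists_kap n hn
    exact ⟨κ, isKappa hn c (fun k hk => (hc k hk).1) (fun k hk => (hc k hk).2) hκ, hκ, hκn, hκ5⟩

end Pool.Agent.Results.MP_d1c05b_gt.PolydiskMaximizer
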